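import Pool.Agent.H1.AsyA

namespace Pool.Agent.Results.MP_fdf6c3_an.One

open scoped ComplexOrder

variable {H : Type} [NormedAddCommGroup H] [InnerProductSpace ℂ H] [CompleteSpace H]

/-- a Banach limit: a positive, shift invariant, normalised linear functional on `ℓ^∞(ℕ)` -/
def IsBanachLimit (L : BoundedContinuousFunction ℕ ℂ →ₗ[ℂ] ℂ) : Prop :=
  (∀ s : BoundedContinuousFunction ℕ ℂ, (∀ n, 0 ≤ s n) → 0 ≤ L s) ∧ L 1 = 1 ∧
    ∀ s s' : BoundedContinuousFunction ℕ ℂ, (∀ n, s' n = s (n + 1)) → L s' = L s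

/-- `T` is power bounded -/
def PowerBounded (T : H →L[ℂ] H) : Prop := ∃ M : ℝ, ∀ n : ℕ, ‖T ^ n‖ ≤ M

/-- `A` is the `L`-asymptotic limit of `T`: `⟨A x, y⟩ = L (⟨T ^ n x, T ^ n y⟩)` -/
def IsAsymptoticLimit (L : BoundedContinuousFunction ℕ ℂ →ₗ[ℂ] ℂ) (T A : H →L[ℂ] H) : Prop :=
  ∀ (x y : H) (s : BoundedContinuousFunction ℕ ℂ),
    (∀ n : ℕ, s n = inner ℂ ((T ^ n) y) ((T ^ n) x)) → inner ℂ y (A x) = L s

/-- the essential spectrum: the `z` such that `A - z` is not invertible modulo compact operators -/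
def essSpectrum (A : H →L[ℂ] H) : Set ℂ :=
  {z | ¬∃ B : H →L[ℂ] H, IsCompactOperator (B * (A - z • 1) - 1 : H →L[ℂ] H) ∧
    IsCompactOperator ((A - z • 1) * B - 1 : H →L[ℂ] H)}

theorem result (hH : ¬FiniteDimensional ℂ H) (L : BoundedContinuousFunction ℕ ℂ →ₗ[ℂ] ℂ)
    (hL : IsBanachLimit L) (T A : H →L[ℂ] H) (hT : PowerBounded T) (hA : IsAsymptoticLimit L T A)
    (hp : A.IsPositive) (t : ℝ) (ht : 0 < t) (he : essSpectrum A = {(t : ℂ)}) : t = 1 := by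
  obtain ⟨_, hM⟩ := hT
  refine Pool.Agent.H1.Asy.eq_one hH hM hL.1 hL.2.1 hL.2.2 hA hp.isSelfAdjoint ht
    (Pool.Agent.H1.Asy.ess hp.isSelfAdjoint fun l hl => ?_)
  have : (l : ℂ) ∉ essSpectrum A := by rw [he]; exact fun h => hl (Complex.ofReal_injective h)
  obtain ⟨B, h, -⟩ := not_not.1 this
  exact ⟨B, h⟩

end Pool.Agent.Results.MP_fdf6c3_an.One
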